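import Pool.Agent.Helper66_D1.Stmts
import Pool.Agent.Helper50_PP.Bid

/-!
# Squad PP, part D1, module INV: invertible central elements of a block
-/

set_option autoImplicit false

noncomputable section

namespace Pool.Agent.PP.D1.H9

open Pool.Agent.PP Pool.Agent.PP.H50 Pool.Agent.Helper51_AWC Pool.Agent.Helper79_WRA

/-- INV -/
theorem inv : InvStmt := by
  intro ℓ F _ _ H _ _ f z hf hz hn
  rcases blk_dich hf hz with ⟨n, h⟩ | ⟨u, hu, h⟩
  · exact absurd h (hn n)
  · refine ⟨u, hu, ?_⟩
    have hfc := (isCl_iff f).1 hf.1.1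
    have hzc := (isCl_iff z).1 hz
    have h1 := congrArg ma h
    rw [ma_mul, ma_mul] at h1
    apply ma_injective
    rw [ma_mul, ma_mul]
    have e1 : ma u * ma z = ma z * ma u := (Subalgebra.mem_center_iff.1 hzc (ma u))
    have e2 : ma f * (ma z * ma u) = (ma z * ma u) * ma f :=
      (Subalgebra.mem_center_iff.1 hfc (ma z * ma u)).symm
    rw [e2, ← e1, h1]

end Pool.Agent.PP.D1.H9
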